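import Mathlib
import Pool.Agent.Y293.FA.Stm5

/-!
# Ahlfors regular sets have equal box and Hausdorff dimension
-/

set_option autoImplicit false

namespace Pool.Agent.Y811.FA

open MeasureTheory Set Filter Topology Metric
open scoped ENNReal

open Pool.Agent.Y293.FA

theorem card_le (A : Set (EuclideanSpace ℝ (Fin 2))) (μ : Measure (EuclideanSpace ℝ (Fin 2))) [IsFiniteMeasure μ] (m r : ℝ) (hm : 0 < m)
    (hA : ∀ x ∈ A, ENNReal.ofReal m ≤ μ (closedBall x (r / 2))) (T : Finset (EuclideanSpace ℝ (Fin 2)))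
    (hT : ∀ x ∈ T, x ∈ A) (hsep : ∀ x ∈ T, ∀ y ∈ T, x ≠ y → r < dist x y) :
    (T.card : ℝ) ≤ μ.real univ / m := by
  have h1 : ∑ x ∈ T, μ (closedBall x (r / 2)) ≤ μ univ := by
    refine sum_measure_le_measure_univ (fun x _ => isClosed_closedBall.measurableSet.nullMeasurableSet)
      ?_
    intro x hx y hy hxy
    refine Disjoint.aedisjoint ?_
    refine closedBall_disjoint_closedBall ?_
    have := hsep x hx y hy hxy
    linarith
  have h2 : (T.card : ℝ≥0∞) * ENNReal.ofReal m ≤ μ univ := by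
    refine le_trans ?_ h1
    calc (T.card : ℝ≥0∞) * ENNReal.ofReal m = ∑ x ∈ T, ENNReal.ofReal m := by
          rw [Finset.sum_const, nsmul_eq_mul]
      _ ≤ _ := Finset.sum_le_sum fun x hx => hA x (hT x hx)
  rw [le_div_iff₀ hm]
  have h3 := ENNReal.toReal_mono (measure_ne_top μ univ) h2
  rw [ENNReal.toReal_mul, ENNReal.toReal_natCast, ENNReal.toReal_ofReal hm.le] at h3
  exact h3

theorem exists_cover (A : Set (EuclideanSpace ℝ (Fin 2))) (μ : Measure (EuclideanSpace ℝ (Fin 2))) [IsFiniteMeasure μ] (m r : ℝ) (hm : 0 < m)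
    (hr : 0 < r)
    (hA : ∀ x ∈ A, ENNReal.ofReal m ≤ μ (closedBall x (r / 2))) :
    ∃ T : Finset (EuclideanSpace ℝ (Fin 2)), (T.card : ℝ) ≤ μ.real univ / m ∧ A ⊆ ⋃ z ∈ T, closedBall z r := by
  classical
  let P : Set ℕ := {n | ∃ T : Finset (EuclideanSpace ℝ (Fin 2)), (∀ x ∈ T, x ∈ A) ∧
    (∀ x ∈ T, ∀ y ∈ T, x ≠ y → r < dist x y) ∧ T.card = n}
  have hne : P.Nonempty := ⟨0, ∅, by simp, by simp, rfl⟩
  have hbd : BddAbove P := by
    refine ⟨⌊μ.real univ / m⌋₊, ?_⟩
    rintro n ⟨T, h1, h2, rfl⟩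
    exact Nat.le_floor (card_le A μ m r hm hA T h1 h2)
  obtain ⟨T, h1, h2, h3⟩ := Nat.sSup_mem hne hbd
  refine ⟨T, card_le A μ m r hm hA T h1 h2, ?_⟩
  intro x hx
  by_contra hcon
  simp only [mem_iUnion, mem_closedBall, not_exists, not_le] at hcon
  have hxT : x ∉ T := fun h => by
    have := hcon x h
    rw [dist_self] at this
    linarith
  have h4 : (insert x T).card ∈ P := by
    refine ⟨insert x T, ?_, ?_, rfl⟩
    · intro y hy
      rcases Finset.mem_insert.1 hy with rfl | hy
      · exact hx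
      · exact h1 y hy
    · intro y hy z hz hyz
      rcases Finset.mem_insert.1 hy with hy' | hy'
      · rcases Finset.mem_insert.1 hz with hz' | hz'
        · exact absurd (hy'.trans hz'.symm) hyz
        · rw [hy']; exact hcon z hz'
      · rcases Finset.mem_insert.1 hz with hz' | hz'
        · rw [dist_comm, hz']; exact hcon y hy'
        · exact h2 y hy' z hz' hyz
  have h5 := le_csSup hbd h4
  rw [Finset.card_insert_of_notMem hxT] at h5
  omega

theorem ahl : S_AHL := by
  intro A s hA hAn hs ⟨μ, c, C, hμ, hAc, hc, hC, h⟩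
  constructor
  · intro η hη
    refine ⟨μ.real univ / (c * (2 : ℝ) ^ (-s)), fun j => ?_⟩
    have hj : (0 : ℝ) < (2 : ℝ)⁻¹ ^ j := by positivity
    have hj1 : (2 : ℝ)⁻¹ ^ j ≤ 1 := pow_le_one₀ (by norm_num) (by norm_num)
    obtain ⟨T, h1, h2⟩ := exists_cover A μ (c * ((2 : ℝ)⁻¹ ^ j / 2) ^ s) ((2 : ℝ)⁻¹ ^ j)
      (by positivity) hj (fun x hx => (h x hx ((2 : ℝ)⁻¹ ^ j / 2) (by positivity) (by linarith)).1)
    refine ⟨T, h1.trans ?_, h2⟩
    have e1 : ((2 : ℝ)⁻¹ ^ j / 2) ^ s = (2 : ℝ) ^ (-s) * (2 : ℝ) ^ (-(s * j)) := by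
      have : ((2 : ℝ)⁻¹ ^ j / 2) = (2 : ℝ) ^ (-((j : ℝ) + 1)) := by
        rw [Real.rpow_neg (by norm_num), Real.rpow_add (by norm_num), Real.rpow_natCast,
          Real.rpow_one, inv_pow, div_eq_mul_inv, mul_inv]
      rw [this, ← Real.rpow_mul (by norm_num), ← Real.rpow_add (by norm_num)]
      congr 1
      ring
    rw [e1, ← mul_assoc, Real.rpow_neg (by norm_num) (s * j), ← div_eq_mul_inv, div_div_eq_mul_div,
      mul_div_right_comm]
    refine mul_le_mul_of_nonneg_left ?_ (by positivity)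
    refine Real.rpow_le_rpow_of_exponent_le (by norm_num) ?_
    have : (0 : ℝ) ≤ η * j := by positivity
    linarith
  · have hkey : ∀ S : Set (EuclideanSpace ℝ (Fin 2)), ediam S ≤ 1 → μ S ≤ ENNReal.ofReal C * ediam S ^ s := by
      intro S hS
      rcases (S ∩ A).eq_empty_or_nonempty with h0 | ⟨x, hxS, hxA⟩
      · have h1 : μ S ≤ μ Aᶜ := measure_mono fun y hy hyA => by
          have : y ∈ S ∩ A := ⟨hy, hyA⟩
          rw [h0] at this
          exact this
        rw [hAc] at h1
        exact h1.trans zero_le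
      · have hfin : ediam S ≠ ⊤ := (hS.trans_lt ENNReal.one_lt_top).ne
        have hsub : S ⊆ closedBall x (ediam S).toReal := by
          intro y hy
          rw [mem_closedBall, dist_edist]
          exact ENNReal.toReal_mono hfin (edist_le_ediam_of_mem hy hxS)
        have hd0 : 0 ≤ (ediam S).toReal := ENNReal.toReal_nonneg
        have hd1 : (ediam S).toReal ≤ 1 := by
          have := ENNReal.toReal_mono ENNReal.one_ne_top hS
          simpa using this
        rcases hd0.eq_or_lt with h0 | h0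
        · have h2 : ∀ n : ℕ, μ S ≤ ENNReal.ofReal (C * ((2 : ℝ)⁻¹ ^ n) ^ s) := by
            intro n
            refine (measure_mono (hsub.trans (closedBall_subset_closedBall ?_))).trans
              (h x hxA ((2 : ℝ)⁻¹ ^ n) (by positivity) (pow_le_one₀ (by norm_num) (by norm_num))).2
            rw [← h0]; positivity
          have h3 : Tendsto (fun n : ℕ => ENNReal.ofReal (C * ((2 : ℝ)⁻¹ ^ n) ^ s)) atTop (𝓝 0) := by
            rw [← ENNReal.ofReal_zero]
            refine ENNReal.tendsto_ofReal ?_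
            have h4 : Tendsto (fun n : ℕ => ((2 : ℝ)⁻¹ ^ n)) atTop (𝓝 0) :=
              tendsto_pow_atTop_nhds_zero_of_lt_one (by norm_num) (by norm_num)
            have h5 := (h4.rpow_const (p := s) (Or.inr hs.le)).const_mul C
            rwa [Real.zero_rpow hs.ne', mul_zero] at h5
          exact (ge_of_tendsto' h3 h2).trans zero_le
        · have h2 := (measure_mono (μ := μ) hsub).trans (h x hxA _ h0 hd1).2
          refine h2.trans (le_of_eq ?_)
          rw [ENNReal.ofReal_mul hC.le, ← ENNReal.ofReal_rpow_of_pos h0, ENNReal.ofReal_toReal hfin]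
    have hC0 : ENNReal.ofReal C ≠ 0 := by
      rw [Ne, ENNReal.ofReal_eq_zero, not_le]; exact hC
    have h1 : (ENNReal.ofReal C)⁻¹ • μ ≤ Measure.hausdorffMeasure s := by
      refine Measure.le_hausdorffMeasure s _ 1 one_pos fun S hS => ?_
      rw [Measure.smul_apply, smul_eq_mul]
      calc (ENNReal.ofReal C)⁻¹ * μ S ≤ (ENNReal.ofReal C)⁻¹ * (ENNReal.ofReal C * ediam S ^ s) := by
            gcongr
            exact hkey S hS
        _ = ediam S ^ s := by
            rw [← mul_assoc, ENNReal.inv_mul_cancel hC0 ENNReal.ofReal_ne_top, one_mul]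
    have h2 : μ A ≠ 0 := by
      obtain ⟨x, hx⟩ := hAn
      intro h0
      have h3 : μ univ = 0 := by
        rw [← union_compl_self A]
        exact measure_union_null h0 hAc
      have h4 := (h x hx 1 one_pos le_rfl).1
      have h5 : μ (closedBall x 1) = 0 := measure_mono_null (subset_univ _) h3
      rw [h5, Real.one_rpow, mul_one, nonpos_iff_eq_zero, ENNReal.ofReal_eq_zero] at h4
      linarith
    have h3 : Measure.hausdorffMeasure ((NNReal.mk s hs.le : NNReal) : ℝ) A ≠ 0 := by
      intro h0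
      have h4 := h1 A
      have h5 : Measure.hausdorffMeasure s A = 0 := h0
      rw [h5, nonpos_iff_eq_zero, Measure.smul_apply, smul_eq_mul, mul_eq_zero] at h4
      rcases h4 with h4 | h4
      · rw [ENNReal.inv_eq_zero] at h4
        exact ENNReal.ofReal_ne_top h4
      · exact h2 h4
    have h4 := le_dimH_of_hausdorffMeasure_ne_zero h3
    have e : ENNReal.ofReal s = ((NNReal.mk s hs.le : NNReal) : ℝ≥0∞) := by
      rw [ENNReal.ofReal, Real.toNNReal_of_nonneg hs.le]
    rw [e]
    exact h4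

end Pool.Agent.Y811.FA
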